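import Pool.Agent.H624R3.CP.Stmts

set_option autoImplicit false

open MeasureTheory Metric Real Set

namespace Pool.Agent.H71R3.CP

open Pool.Agent.H624R3.CP

lemma gamma_lower {x : ℝ} (hx : 0 < x) : x ^ x * exp (-x) ≤ Gamma (x + 1) := by
  rw [Real.Gamma_eq_integral (by linarith)]
  have hint : IntegrableOn (fun t : ℝ => exp (-t) * t ^ (x + 1 - 1)) (Ioi 0) :=
    Real.GammaIntegral_convergent (by linarith)
  have h1 : ∫ t in Ioi x, exp (-t) * t ^ (x + 1 - 1) ≤ ∫ t in Ioi 0, exp (-t) * t ^ (x + 1 - 1) := by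
    refine setIntegral_mono_set hint ?_ (Ioi_subset_Ioi hx.le).eventuallyLE
    refine (ae_restrict_iff' measurableSet_Ioi).mpr (Filter.Eventually.of_forall fun t ht => ?_)
    have : 0 < t := ht
    exact mul_nonneg (exp_pos _).le (rpow_nonneg this.le _)
  have h2 : ∫ t in Ioi x, exp (-t) * x ^ x ≤ ∫ t in Ioi x, exp (-t) * t ^ (x + 1 - 1) := by
    refine setIntegral_mono_on ?_ (hint.mono_set (Ioi_subset_Ioi hx.le)) measurableSet_Ioi ?_
    · exact (integrableOn_exp_neg_Ioi x).mul_const _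
    · intro t ht
      have ht' : x ≤ t := le_of_lt ht
      rw [add_sub_cancel_right]
      gcongr
  rw [integral_mul_const, integral_exp_neg_Ioi] at h2
  linarith

theorem taskBALL : TaskBALL := by
  intro d hd
  haveI : Nonempty (Fin d) := ⟨⟨0, hd⟩⟩
  have hx : (0 : ℝ) < (d : ℝ) / 2 := by
    have : (1 : ℝ) ≤ d := by exact_mod_cast hd
    linarith
  have hΓ : 0 < Gamma ((d : ℝ) / 2 + 1) := Gamma_pos_of_pos (by linarith)
  have hv : vb d = √π ^ d / Gamma ((d : ℝ) / 2 + 1) := by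
    unfold vb
    rw [EuclideanSpace.volume_closedBall]
    simp only [Fintype.card_fin, ENNReal.ofReal_one, one_pow, one_mul]
    rw [ENNReal.toReal_ofReal (by positivity)]
  have hpi : √π ^ d = π ^ ((d : ℝ) / 2) := by
    rw [Real.sqrt_eq_rpow, ← Real.rpow_natCast, ← Real.rpow_mul pi_pos.le]
    congr 1; ring
  refine ⟨?_, ?_, ?_⟩
  · rw [hv]; positivity
  · have hR : √π ^ d * Rd d ^ d = ((d : ℝ) / 2) ^ ((d : ℝ) / 2) * exp (-((d : ℝ) / 2)) := by
      unfold Rd
      rw [← mul_pow, ← Real.sqrt_mul pi_pos.le]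
      have e1 : π * ((d : ℝ) / (2 * π * exp 1)) = ((d : ℝ) / 2) * exp (-1) := by
        rw [Real.exp_neg]
        have := pi_pos.ne'
        have := (exp_pos 1).ne'
        field_simp
      rw [e1, Real.sqrt_eq_rpow, ← Real.rpow_natCast, ← Real.rpow_mul (by positivity),
        Real.mul_rpow hx.le (exp_pos _).le, ← Real.exp_mul]
      congr 2 <;> ring
    rw [hv, div_mul_eq_mul_div, hR, div_le_one hΓ]
    exact gamma_lower hx
  · rw [hv, hpi]

end Pool.Agent.H71R3.CP
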